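import Pool.Agent.H630MC.Tab

/-! Random tables are hard: counting (helper630) -/

open scoped Classical
open Finset

namespace H630MC

open H630VC (Prog Mono2)
open H630XR

variable {K k : ℕ}

/-- two entries at the same point are rare -/
theorem same_pt {m : ℕ} {j j' : Fin m} (hj : j ≠ j') :
    (univ.filter fun ω : Fin m → Cl (Fin (2 ^ k)) K => pt (ω j) = pt (ω j')).card
      * Fintype.card (Cl (Fin (2 ^ k)) K) ≤ Fintype.card (Cl (Fin (2 ^ k)) K) ^ m * 2 ^ K := by
  have h1 : ((univ.filter fun ω : Fin m → Cl (Fin (2 ^ k)) K => pt (ω j) = pt (ω j')) ×ˢ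
      (univ : Finset (Cl (Fin (2 ^ k)) K))).card ≤
      ((univ : Finset (Fin m → Cl (Fin (2 ^ k)) K)) ×ˢ (univ : Finset (Fin K → Bool))).card := by
    refine card_le_card_of_injOn
      (fun q => (Function.update q.1 j q.2, fun i => (q.1 j i).2))
      (fun _ _ => Finset.mem_coe.2 (mem_product.2 ⟨mem_univ _, mem_univ _⟩)) ?_
    rintro ⟨ω, c⟩ hω ⟨ω', c'⟩ hω' heq
    have g1 := (mem_filter.1 (mem_product.1 (Finset.mem_coe.1 hω)).1).2
    have g2 := (mem_filter.1 (mem_product.1 (Finset.mem_coe.1 hω')).1).2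
    simp only at g1 g2
    simp only [Prod.mk.injEq] at heq
    obtain ⟨h2, h3⟩ := heq
    have hc : c = c' := by
      have := congrFun h2 j
      simpa using this
    have ho : ∀ i, i ≠ j → ω i = ω' i := by
      intro i hi
      have := congrFun h2 i
      simpa [Function.update_of_ne hi] using this
    have hω2 : ω = ω' := by
      funext i
      by_cases hi : i = j
      · subst hi
        have h4 : pt (ω i) = pt (ω' i) := by rw [g1, g2, ho j' hj.symm]
        funext t
        refine Prod.ext ?_ (congrFun h3 t)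
        have h5 : blk (pt (ω i)) t = blk (pt (ω' i)) t := by rw [h4]
        rw [blk_pt, blk_pt] at h5
        exact (en k).injective h5
      · exact ho i hi
    rw [hω2, hc]
  have h2 : Fintype.card (Fin m → Cl (Fin (2 ^ k)) K) = Fintype.card (Cl (Fin (2 ^ k)) K) ^ m := by
    rw [Fintype.card_fun, Fintype.card_fin]
  have h3 : Fintype.card (Fin K → Bool) = 2 ^ K := by simp
  rw [card_product, card_product, card_univ, card_univ, card_univ, h2, h3] at h1
  exact h1

/-- contradictions are rare -/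
theorem card_incons (m : ℕ) :
    (univ.filter fun ω : Fin m → Cl (Fin (2 ^ k)) K => ¬ Cons (univ.image ω)).card
      * Fintype.card (Cl (Fin (2 ^ k)) K) ≤
      m ^ 2 * (Fintype.card (Cl (Fin (2 ^ k)) K) ^ m * 2 ^ K) := by
  have hsub : (univ.filter fun ω : Fin m → Cl (Fin (2 ^ k)) K => ¬ Cons (univ.image ω)) ⊆
      (univ.filter fun p : Fin m × Fin m => p.1 ≠ p.2).biUnion
        fun p => univ.filter fun ω : Fin m → Cl (Fin (2 ^ k)) K => pt (ω p.1) = pt (ω p.2) := by
    intro ω hω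
    rw [mem_filter] at hω
    have h := hω.2
    unfold Cons at h
    push Not at h
    obtain ⟨c, hc, c', hc', hpt, hne⟩ := h
    obtain ⟨i, -, rfl⟩ := mem_image.1 hc
    obtain ⟨i', -, rfl⟩ := mem_image.1 hc'
    rw [mem_biUnion]
    refine ⟨(i, i'), ?_, ?_⟩
    · rw [mem_filter]
      refine ⟨mem_univ _, ?_⟩
      rintro (rfl : i = i')
      exact hne rfl
    · rw [mem_filter]
      exact ⟨mem_univ _, hpt⟩
  calc _ ≤ (∑ p ∈ (univ.filter fun p : Fin m × Fin m => p.1 ≠ p.2),
        (univ.filter fun ω : Fin m → Cl (Fin (2 ^ k)) K => pt (ω p.1) = pt (ω p.2)).card)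
        * Fintype.card (Cl (Fin (2 ^ k)) K) :=
        Nat.mul_le_mul_right _ ((card_le_card hsub).trans card_biUnion_le)
    _ = ∑ p ∈ (univ.filter fun p : Fin m × Fin m => p.1 ≠ p.2),
        (univ.filter fun ω : Fin m → Cl (Fin (2 ^ k)) K => pt (ω p.1) = pt (ω p.2)).card
        * Fintype.card (Cl (Fin (2 ^ k)) K) := by rw [Finset.sum_mul]
    _ ≤ ∑ p ∈ (univ.filter fun p : Fin m × Fin m => p.1 ≠ p.2),
        Fintype.card (Cl (Fin (2 ^ k)) K) ^ m * 2 ^ K :=
        Finset.sum_le_sum fun p hp => same_pt (mem_filter.1 hp).2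
    _ = (univ.filter fun p : Fin m × Fin m => p.1 ≠ p.2).card *
        (Fintype.card (Cl (Fin (2 ^ k)) K) ^ m * 2 ^ K) := by rw [sum_const, smul_eq_mul]
    _ ≤ m ^ 2 * (Fintype.card (Cl (Fin (2 ^ k)) K) ^ m * 2 ^ K) := by
        refine Nat.mul_le_mul_right _ ((card_filter_le _ _).trans ?_)
        simp [pow_two]

/-- negate the first literal -/
noncomputable def fl (hK : 1 ≤ K) (c : Cl (Fin (2 ^ k)) K) : Cl (Fin (2 ^ k)) K :=
  Function.update c ⟨0, hK⟩ ((c ⟨0, hK⟩).1, !(c ⟨0, hK⟩).2)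

theorem fl_fl (hK : 1 ≤ K) (c : Cl (Fin (2 ^ k)) K) : fl hK (fl hK c) = c := by
  funext i
  unfold fl
  by_cases h : i = ⟨0, hK⟩
  · subst h; simp
  · rw [Function.update_of_ne h, Function.update_of_ne h]

theorem pt_fl (hK : 1 ≤ K) (c : Cl (Fin (2 ^ k)) K) : pt (fl hK c) = pt c := by
  funext t
  unfold pt fl
  by_cases h : (finProdFinEquiv.symm t).1 = ⟨0, hK⟩
  · rw [h, Function.update_self]
  · rw [Function.update_of_ne h]

theorem vl_fl (hK : 1 ≤ K) (c : Cl (Fin (2 ^ k)) K) : vl (fl hK c) = !(vl c) := by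
  unfold vl
  have h1 : (univ.filter fun i : Fin K => (fl hK c i).2 = true).card +
      (univ.filter fun i : Fin K => (c i).2 = true).card =
      2 * ((univ.erase ⟨0, hK⟩).filter fun i : Fin K => (c i).2 = true).card + 1 := by
    have e1 : ∀ (P : Fin K → Prop) [DecidablePred P], (univ.filter P).card =
        ((univ.erase ⟨0, hK⟩).filter P).card + if P ⟨0, hK⟩ then 1 else 0 := by
      intro P _
      rw [← Finset.insert_erase (mem_univ (⟨0, hK⟩ : Fin K)), Finset.filter_insert]
      split_ifs with h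
      · rw [card_insert_of_notMem (by simp)]
        simp
      · simp
    rw [e1, e1 fun i => (c i).2 = true]
    have e2 : ((univ.erase (⟨0, hK⟩ : Fin K)).filter fun i : Fin K => (fl hK c i).2 = true) =
        (univ.erase (⟨0, hK⟩ : Fin K)).filter fun i : Fin K => (c i).2 = true := by
      refine Finset.filter_congr fun i hi => ?_
      unfold fl
      rw [Function.update_of_ne (Finset.ne_of_mem_erase hi)]
    rw [e2]
    have e3 : (fl hK c ⟨0, hK⟩).2 = !(c ⟨0, hK⟩).2 := by
      unfold fl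
      rw [Function.update_self]
    rw [e3]
    cases (c ⟨0, hK⟩).2 <;> simp <;> ring
  rw [← decide_not, decide_eq_decide, Nat.even_iff, Nat.even_iff]
  omega

/-- half of the clauses agree with a given function -/
theorem card_agree (hK : 1 ≤ K) (g : (Fin (K * k) → Bool) → Bool) :
    (univ.filter fun c : Cl (Fin (2 ^ k)) K => g (pt c) = vl c).card * 2 =
      Fintype.card (Cl (Fin (2 ^ k)) K) := by
  have h1 : (univ.filter fun c : Cl (Fin (2 ^ k)) K => g (pt c) = vl c).card =
      (univ.filter fun c : Cl (Fin (2 ^ k)) K => ¬ g (pt c) = vl c).card := by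
    refine Finset.card_bij' (fun c _ => fl hK c) (fun c _ => fl hK c) ?_ ?_ ?_ ?_
    · intro c hc
      rw [mem_filter] at hc ⊢
      refine ⟨mem_univ _, ?_⟩
      rw [pt_fl, vl_fl, hc.2]
      cases vl c <;> simp
    · intro c hc
      rw [mem_filter] at hc ⊢
      refine ⟨mem_univ _, ?_⟩
      rw [pt_fl, vl_fl]
      have := hc.2
      revert this
      cases g (pt c) <;> cases vl c <;> simp
    · intro c _; exact fl_fl hK c
    · intro c _; exact fl_fl hK c
  have h2 := Finset.card_filter_add_card_filter_not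
    (s := (univ : Finset (Cl (Fin (2 ^ k)) K))) (fun c => g (pt c) = vl c)
  rw [card_univ] at h2
  omega

/-- few random tables agree with a given function -/
theorem card_all_agree (hK : 1 ≤ K) (m : ℕ) (g : (Fin (K * k) → Bool) → Bool) :
    (univ.filter fun ω : Fin m → Cl (Fin (2 ^ k)) K => ∀ j, g (pt (ω j)) = vl (ω j)).card * 2 ^ m =
      Fintype.card (Cl (Fin (2 ^ k)) K) ^ m := by
  have h1 : (univ.filter fun ω : Fin m → Cl (Fin (2 ^ k)) K => ∀ j, g (pt (ω j)) = vl (ω j)) =
      Fintype.piFinset fun _ : Fin m =>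
        univ.filter fun c : Cl (Fin (2 ^ k)) K => g (pt c) = vl c := by
    ext ω
    simp [Fintype.mem_piFinset]
  rw [h1, Fintype.card_piFinset, prod_const, card_univ, Fintype.card_fin, ← mul_pow,
    card_agree hK g]

/-- the formula has no contradictions and its table agrees with no function in `G` -/
def Hard (G : Finset ((Fin (K * k) → Bool) → Bool)) (F : Finset (Cl (Fin (2 ^ k)) K)) : Prop :=
  Cons F ∧ ∀ g ∈ G, ∃ x b, tab F x = some b ∧ g x ≠ b

theorem card_not_hard (hK : 1 ≤ K) (m : ℕ) (G : Finset ((Fin (K * k) → Bool) → Bool)) :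
    ((univ.filter fun ω : Fin m → Cl (Fin (2 ^ k)) K => ¬ Hard G (univ.image ω)).card : ℝ) ≤
      ((m : ℝ) ^ 2 * 2 ^ K / Fintype.card (Cl (Fin (2 ^ k)) K) + G.card / 2 ^ m) *
        (Fintype.card (Cl (Fin (2 ^ k)) K) : ℝ) ^ m := by
  have hsub : (univ.filter fun ω : Fin m → Cl (Fin (2 ^ k)) K => ¬ Hard G (univ.image ω)) ⊆
      (univ.filter fun ω : Fin m → Cl (Fin (2 ^ k)) K => ¬ Cons (univ.image ω)) ∪
      G.biUnion fun g => univ.filter fun ω : Fin m → Cl (Fin (2 ^ k)) K =>
        ∀ j, g (pt (ω j)) = vl (ω j) := by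
    intro ω hω
    rw [mem_union]
    by_cases hc : Cons (univ.image ω)
    · right
      have h := (mem_filter.1 hω).2
      unfold Hard at h
      push Not at h
      obtain ⟨g, hg, hx⟩ := h hc
      rw [mem_biUnion]
      refine ⟨g, hg, mem_filter.2 ⟨mem_univ _, fun j => ?_⟩⟩
      exact hx (pt (ω j)) (vl (ω j)) ((tab_iff hc _ _).2
        ⟨ω j, mem_image.2 ⟨j, mem_univ _, rfl⟩, rfl, rfl⟩)
    · left
      exact mem_filter.2 ⟨mem_univ _, hc⟩
  set D : ℝ := (Fintype.card (Cl (Fin (2 ^ k)) K) : ℝ) with hD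
  have hD0 : 0 < D := by
    rw [hD]
    have : Nonempty (Cl (Fin (2 ^ k)) K) := ⟨fun _ => (⟨0, by positivity⟩, true)⟩
    exact_mod_cast Fintype.card_pos
  have h1 : ((univ.filter fun ω : Fin m → Cl (Fin (2 ^ k)) K =>
      ¬ Cons (univ.image ω)).card : ℝ) ≤ (m : ℝ) ^ 2 * 2 ^ K / D * D ^ m := by
    have h2 := card_incons (K := K) (k := k) m
    have h3 : ((univ.filter fun ω : Fin m → Cl (Fin (2 ^ k)) K =>
      ¬ Cons (univ.image ω)).card : ℝ) * D ≤ (m : ℝ) ^ 2 * (D ^ m * 2 ^ K) := by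
      rw [hD]; exact_mod_cast h2
    rw [div_mul_eq_mul_div, le_div_iff₀ hD0]
    linarith
  have h4 : ∀ g ∈ G, ((univ.filter fun ω : Fin m → Cl (Fin (2 ^ k)) K =>
        ∀ j, g (pt (ω j)) = vl (ω j)).card : ℝ) ≤ 1 / 2 ^ m * D ^ m := by
    intro g _
    have h5 := card_all_agree hK m g
    have h6 : ((univ.filter fun ω : Fin m → Cl (Fin (2 ^ k)) K =>
        ∀ j, g (pt (ω j)) = vl (ω j)).card : ℝ) * 2 ^ m = D ^ m := by
      rw [hD]; exact_mod_cast h5
    rw [← h6]
    have : (0 : ℝ) < 2 ^ m := by positivity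
    field_simp
    exact le_refl _
  have h7 : ((univ.filter fun ω : Fin m → Cl (Fin (2 ^ k)) K =>
      ¬ Hard G (univ.image ω)).card : ℝ) ≤
      ((univ.filter fun ω : Fin m → Cl (Fin (2 ^ k)) K => ¬ Cons (univ.image ω)).card : ℝ) +
      ∑ g ∈ G, ((univ.filter fun ω : Fin m → Cl (Fin (2 ^ k)) K =>
        ∀ j, g (pt (ω j)) = vl (ω j)).card : ℝ) := by
    have h8 := (card_le_card hsub).trans ((card_union_le _ _).trans
      (Nat.add_le_add_left card_biUnion_le _))
    exact_mod_cast h8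
  refine h7.trans ?_
  have h9 := Finset.sum_le_sum h4
  rw [sum_const, nsmul_eq_mul] at h9
  have h10 : ((m : ℝ) ^ 2 * 2 ^ K / D + G.card / 2 ^ m) * D ^ m =
      (m : ℝ) ^ 2 * 2 ^ K / D * D ^ m + G.card * (1 / 2 ^ m * D ^ m) := by ring
  rw [h10]
  exact add_le_add h1 h9

end H630MC
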