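import Pool.Agent.H630MC.Up

/-! The gap theorems for circuits and branching programs (helper630) -/

open scoped Classical
open Finset Filter

namespace H630MC

open H630VC (Prog Mono2)
open Pool.Agent.H589R2

theorem ev_lin (A B η : ℝ) (hη : 0 < η) :
    ∀ᶠ k : ℕ in atTop, A * k + B ≤ ((2 : ℝ) ^ k) ^ η := by
  set r : ℝ := 2 ^ η with hr
  have hr1 : 1 < r := Real.one_lt_rpow (by norm_num) hη
  have h1 := (isLittleO_pow_const_const_pow_of_one_lt (R := ℝ) 1 hr1)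
  have h2 : ∀ᶠ k : ℕ in atTop, ‖((k : ℝ)) ^ 1‖ ≤ 1 / (2 * (|A| + 1)) * ‖r ^ k‖ :=
    h1.def (by positivity)
  have h3 : ∀ᶠ k : ℕ in atTop, 2 * |B| ≤ r ^ k :=
    (tendsto_pow_atTop_atTop_of_one_lt hr1).eventually_ge_atTop _
  filter_upwards [h2, h3] with k hk2 hk3
  have hrk : 0 < r ^ k := by positivity
  have e : ((2 : ℝ) ^ k) ^ η = r ^ k := by
    rw [hr, ← Real.rpow_natCast 2 k, ← Real.rpow_natCast (2 ^ η) k, ← Real.rpow_mul (by norm_num),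
      ← Real.rpow_mul (by norm_num), mul_comm]
  rw [e]
  rw [pow_one, Real.norm_of_nonneg (Nat.cast_nonneg _), Real.norm_of_nonneg hrk.le] at hk2
  have hA : A * k ≤ r ^ k / 2 := by
    have h4 : A * k ≤ (|A| + 1) * k :=
      mul_le_mul_of_nonneg_right (by linarith [le_abs_self A]) (Nat.cast_nonneg _)
    have h5 : (|A| + 1) * (k : ℝ) ≤ (|A| + 1) * (1 / (2 * (|A| + 1)) * r ^ k) :=
      mul_le_mul_of_nonneg_left hk2 (by positivity)
    have h6 : (|A| + 1) * (1 / (2 * (|A| + 1)) * r ^ k) = r ^ k / 2 := by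
      have : |A| + 1 ≠ 0 := by positivity
      field_simp
    linarith
  have hB : B ≤ r ^ k / 2 := by linarith [le_abs_self B]
  linarith

theorem numer (K : ℕ) (γ δ c : ℝ) (hγδ : γ < (K : ℝ) / 2 - δ) (hδ : 0 < δ) (hγ : 0 ≤ γ)
    (hc : 0 < c) :
    ∃ N : ℕ, ∀ k : ℕ, N ≤ k → ∀ S : ℕ, (S : ℝ) ≤ ((2 : ℝ) ^ k) ^ γ →
      ∃ m : ℕ, (m : ℝ) ≤ ((2 : ℝ) ^ k) ^ ((K : ℝ) / 2 - δ) ∧
        (2 : ℝ) ^ ((3 * (K * k) + 3) * (S + 1)) ≤ c * 2 ^ m ∧ K * k + S + 1 ≤ 2 ^ (K * k) := by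
  obtain ⟨t0, ht0⟩ := exists_pow_lt_of_lt_one hc (show (1 / 2 : ℝ) < 1 by norm_num)
  set η := (K : ℝ) / 2 - δ - γ with hη
  have hη0 : 0 < η := by rw [hη]; linarith
  obtain ⟨N, hN⟩ := (ev_lin (6 * K) (6 + t0) η hη0).exists_forall_of_atTop
  refine ⟨N, fun k hk S hS => ?_⟩
  have h1 := hN k hk
  set M : ℝ := (2 : ℝ) ^ k with hM
  have hM1 : 1 ≤ M := one_le_pow₀ (by norm_num)
  have hM0 : 0 < M := by linarith
  have hMγ : 1 ≤ M ^ γ := Real.one_le_rpow hM1 hγ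
  have h2 : ((3 * (K * k) + 3 : ℕ) : ℝ) * ((S + 1 : ℕ) : ℝ) + t0 ≤ M ^ ((K : ℝ) / 2 - δ) := by
    have h3 : M ^ ((K : ℝ) / 2 - δ) = M ^ η * M ^ γ := by
      rw [← Real.rpow_add hM0]; congr 1; rw [hη]; ring
    rw [h3]
    push_cast
    have h4 : (S : ℝ) + 1 ≤ 2 * M ^ γ := by linarith
    calc (3 * ((K : ℝ) * k) + 3) * (S + 1) + t0
        ≤ (3 * ((K : ℝ) * k) + 3) * (2 * M ^ γ) + t0 * M ^ γ := by
          refine add_le_add (mul_le_mul_of_nonneg_left h4 (by positivity)) ?_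
          nlinarith [Nat.cast_nonneg (α := ℝ) t0]
      _ = (6 * K * k + (6 + t0)) * M ^ γ := by ring
      _ ≤ M ^ η * M ^ γ := mul_le_mul_of_nonneg_right h1 (by positivity)
  have h2' : (((3 * (K * k) + 3) * (S + 1) + t0 : ℕ) : ℝ) ≤ M ^ ((K : ℝ) / 2 - δ) := by
    push_cast at h2 ⊢
    exact h2
  refine ⟨⌊M ^ ((K : ℝ) / 2 - δ)⌋₊, Nat.floor_le (by positivity), ?_, ?_⟩
  · have h3 : (3 * (K * k) + 3) * (S + 1) + t0 ≤ ⌊M ^ ((K : ℝ) / 2 - δ)⌋₊ := Nat.le_floor h2'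
    set m := ⌊M ^ ((K : ℝ) / 2 - δ)⌋₊
    have h4 : (2 : ℝ) ^ ((3 * (K * k) + 3) * (S + 1)) * 2 ^ t0 ≤ 2 ^ m := by
      rw [← pow_add]
      exact pow_le_pow_right₀ (by norm_num) h3
    have h5 : (2 : ℝ) ^ ((3 * (K * k) + 3) * (S + 1)) ≤ (1 / 2) ^ t0 * 2 ^ m := by
      rw [one_div, inv_pow, inv_mul_eq_div, le_div_iff₀ (by positivity)]
      exact h4
    exact h5.trans (mul_le_mul_of_nonneg_right ht0.le (by positivity))
  · have h3 : (((3 * (K * k) + 3) * (S + 1) + t0 : ℕ) : ℝ) ≤ ((2 ^ (K * k) : ℕ) : ℝ) := by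
      refine h2'.trans ?_
      have h4 : ((2 ^ (K * k) : ℕ) : ℝ) = M ^ (K : ℝ) := by
        push_cast
        rw [Real.rpow_natCast, hM, ← pow_mul, mul_comm]
      rw [h4]
      refine Real.rpow_le_rpow_of_exponent_le hM1 ?_
      have : (0 : ℝ) ≤ K := Nat.cast_nonneg _
      linarith
    have h4 : (3 * (K * k) + 3) * (S + 1) + t0 ≤ 2 ^ (K * k) := by exact_mod_cast h3
    refine le_trans ?_ h4
    nlinarith [Nat.zero_le (K * k), Nat.zero_le S]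

/-- circuits -/
theorem circ_gap (K : ℕ) (γ ν ξ : ℝ) (hK : 3 ≤ K) (hγ : 1 < γ) (hν : 0 < ν) (hξ : 0 < ξ)
    (h : (3 * K + 1) * ν < (K : ℝ) / 2 - γ) :
    ∃ N : ℕ, ∀ k : ℕ, N ≤ k → ∀ S : ℕ, (S : ℝ) ≤ ((2 : ℝ) ^ k) ^ γ →
      ∀ (R : Type) [Fintype R] [Nonempty R]
      (l : R → List (((Fin (K * k) → Bool) → Option Bool) → ℝ))
      (f : R → ((Fin (K * k) → Bool) → Option Bool) → ℝ),
      (∀ r, Prog (tabInputs (K * k)) (l r) ∧ f r ∈ l r) →
      (∀ C : Circuit (K * k), C.size ≤ 3 * K * 2 ^ k + 1 →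
        (1 / 2 + ξ) * Fintype.card R ≤
          (univ.filter fun r => f r (fun x => some (C.eval x)) < 1).card) →
      (∀ T : (Fin (K * k) → Bool) → Option Bool, ¬ PartialMCSP (K * k) S T →
        (1 / 2 + ξ) * Fintype.card R ≤ (univ.filter fun r => 1 ≤ f r T).card) →
      ∃ r, (2 : ℝ) ^ (((2 : ℝ) ^ k) ^ ν) < (l r).length := by
  obtain ⟨δ, hδ1, hδ2⟩ := exists_between h
  have hδ0 : 0 < δ := lt_trans (by positivity) hδ1
  obtain ⟨N1, hN1⟩ := gap_tables K (by omega) δ ν ξ hν hξ hδ1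
  obtain ⟨N2, hN2⟩ := numer K γ δ (ξ / (1 + 2 * ξ) / 2) (by linarith) hδ0 (by linarith)
    (by positivity)
  refine ⟨max (max N1 N2) 1, fun k hk S hS R _ _ l f hpf heasy hhard => ?_⟩
  have hk1 : 1 ≤ k := (le_max_right _ _).trans hk
  obtain ⟨m, hm, hcard, hw⟩ := hN2 k ((le_max_right _ _).trans ((le_max_left _ _).trans hk)) S hS
  have hpos : 0 < K * k := by positivity
  refine hN1 k ((le_max_left _ _).trans ((le_max_left _ _).trans hk)) m hm (smallF (K * k) S) ?_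
    R l f hpf ?_ ?_
  · have h1 := smallF_card (K * k) S (K * k) hw
    have h2 : 2 ^ ((2 * (K * k) + 3) * (S + 1)) ≤ 2 ^ ((3 * (K * k) + 3) * (S + 1)) :=
      Nat.pow_le_pow_right (by norm_num) (Nat.mul_le_mul_right _ (by omega))
    have h3 : ((smallF (K * k) S).card : ℝ) ≤ (2 : ℝ) ^ ((3 * (K * k) + 3) * (S + 1)) := by
      exact_mod_cast h1.trans h2
    exact h3.trans hcard
  · intro y
    obtain ⟨C, hC, hCe⟩ := lk_circuit hpos y
    rw [← hCe]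
    exact heasy C hC
  · intro T hT
    refine hhard T ?_
    rintro ⟨C, hC, hag⟩
    obtain ⟨x, b, hx, hne⟩ := hT C.eval (by
      simp only [smallF, mem_filter, mem_univ, true_and]
      exact ⟨C, hC, rfl⟩)
    exact hne (hag x b hx)

/-- branching programs -/
theorem bp_gap (K : ℕ) (γ ν ξ : ℝ) (hK : 3 ≤ K) (hγ : 1 < γ) (hν : 0 < ν) (hξ : 0 < ξ)
    (h : (3 * K + 1) * ν < (K : ℝ) / 2 - γ) :
    ∃ N : ℕ, ∀ k : ℕ, N ≤ k → ∀ S : ℕ, (S : ℝ) ≤ ((2 : ℝ) ^ k) ^ γ →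
      ∀ (R : Type) [Fintype R] [Nonempty R]
      (l : R → List (((Fin (K * k) → Bool) → Option Bool) → ℝ))
      (f : R → ((Fin (K * k) → Bool) → Option Bool) → ℝ),
      (∀ r, Prog (tabInputs (K * k)) (l r) ∧ f r ∈ l r) →
      (∀ P : BP (K * k), P.size ≤ 2 * K * 2 ^ k + 4 →
        (1 / 2 + ξ) * Fintype.card R ≤
          (univ.filter fun r => f r (fun x => some (P.eval x)) < 1).card) →
      (∀ T : (Fin (K * k) → Bool) → Option Bool, ¬ PartialMBPSP (K * k) S T →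
        (1 / 2 + ξ) * Fintype.card R ≤ (univ.filter fun r => 1 ≤ f r T).card) →
      ∃ r, (2 : ℝ) ^ (((2 : ℝ) ^ k) ^ ν) < (l r).length := by
  obtain ⟨δ, hδ1, hδ2⟩ := exists_between h
  have hδ0 : 0 < δ := lt_trans (by positivity) hδ1
  obtain ⟨N1, hN1⟩ := gap_tables K (by omega) δ ν ξ hν hξ hδ1
  obtain ⟨N2, hN2⟩ := numer K γ δ (ξ / (1 + 2 * ξ) / 2) (by linarith) hδ0 (by linarith)
    (by positivity)
  refine ⟨max (max N1 N2) 1, fun k hk S hS R _ _ l f hpf heasy hhard => ?_⟩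
  have hk1 : 1 ≤ k := (le_max_right _ _).trans hk
  obtain ⟨m, hm, hcard, hw⟩ := hN2 k ((le_max_right _ _).trans ((le_max_left _ _).trans hk)) S hS
  have hpos : 0 < K * k := by positivity
  refine hN1 k ((le_max_left _ _).trans ((le_max_left _ _).trans hk)) m hm (smallB (K * k) S) ?_
    R l f hpf ?_ ?_
  · have h1 := smallB_card (K * k) S (K * k) (by omega)
    have h2 : 2 ^ (3 * (K * k) * (S + 1)) ≤ 2 ^ ((3 * (K * k) + 3) * (S + 1)) :=
      Nat.pow_le_pow_right (by norm_num) (Nat.mul_le_mul_right _ (by omega))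
    have h3 : ((smallB (K * k) S).card : ℝ) ≤ (2 : ℝ) ^ ((3 * (K * k) + 3) * (S + 1)) := by
      exact_mod_cast h1.trans h2
    exact h3.trans hcard
  · intro y
    obtain ⟨P, hP, hPe⟩ := lk_bp hpos y
    rw [← hPe]
    exact heasy P hP
  · intro T hT
    refine hhard T ?_
    rintro ⟨_, C, hC, hag⟩
    obtain ⟨x, b, hx, hne⟩ := hT C.eval (by
      simp only [smallB, mem_filter, mem_univ, true_and]
      exact ⟨C, hC, rfl⟩)
    exact hne (hag x b hx)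

end H630MC
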