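import Pool.Agent.H630XR.Six

/-! The dichotomy for randomised circuits, abstract version (helper630) -/

open scoped Classical
open Finset Filter

namespace H630MC

open H630VC (Prog Mono2)
open H630XR

/-- randomised circuits: `W` is a set of almost all random formulas -/
theorem dich_rand (K : ℕ) (hK : 1 ≤ K) (δ ν ξ : ℝ) (hν : 0 < ν) (hξ : 0 < ξ)
    (h : (3 * K + 1) * ν < δ) :
    ∃ N : ℕ, ∀ n : ℕ, N ≤ n → ∀ m : ℕ, (m : ℝ) ≤ (n : ℝ) ^ ((K : ℝ) / 2 - δ) →
      ∀ (R : Type) [Fintype R] [Nonempty R]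
      (l : R → List (Finset (Cl (Fin n) K) → ℝ)) (f : R → Finset (Cl (Fin n) K) → ℝ),
      (∀ r, Prog (cnfInputs (Fin n) K) (l r) ∧ f r ∈ l r) →
      (∀ x : Fin n → Bool,
        (1 / 2 + ξ) * Fintype.card R ≤ (univ.filter fun r => f r (oddFormula x) < 1).card) →
      ∀ W : Finset (Fin m → Cl (Fin n) K),
      (1 - ξ / (1 + 2 * ξ)) * (Fintype.card (Cl (Fin n) K) : ℝ) ^ m ≤ W.card →
      (∀ ω ∈ W,
        (1 / 2 + ξ) * Fintype.card R ≤ (univ.filter fun r => 1 ≤ f r (univ.image ω)).card) →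
      ∃ r, (2 : ℝ) ^ ((n : ℝ) ^ ν) < (l r).length := by
  obtain ⟨N, hN⟩ := dichotomy K hK δ ν hν h
  set b : ℝ := ξ / (1 + 2 * ξ) with hb
  have hb0 : 0 < b := by positivity
  have hbξ : (1 / 2 + ξ) * b = ξ / 2 := by
    rw [hb]; field_simp
  have e2 : ∀ᶠ n : ℕ in atTop, 1 / ξ + 1 ≤ (n : ℝ) ^ ν :=
    ((tendsto_rpow_atTop hν).comp (tendsto_natCast_atTop_atTop (R := ℝ))).eventually_ge_atTop _
  obtain ⟨N1, hN1⟩ := (e2.and (eventually_ge_atTop 1)).exists_forall_of_atTop
  refine ⟨max N N1, fun n hn m hm R _ _ l f hpf hsat W hWc hWf => ?_⟩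
  obtain ⟨h2, hn1⟩ := hN1 n ((le_max_right _ _).trans hn)
  by_contra hlt
  push Not at hlt
  have hnR : (1 : ℝ) ≤ n := by exact_mod_cast hn1
  have hn0 : (0 : ℝ) < n := by linarith
  set κ : ℝ := (n : ℝ) ^ (-ν) with hκ
  have hκ0 : 0 ≤ κ := by positivity
  have hκξ : κ < ξ := by
    rw [hκ, Real.rpow_neg hn0.le]
    have h3 : 1 / ξ < (n : ℝ) ^ ν := by linarith
    rw [inv_lt_comm₀ (by positivity) hξ]
    rwa [one_div] at h3
  have hκ2 : (2 : ℝ) ^ (-(n : ℝ) ^ ν) ≤ κ := by
    rw [hκ, Real.rpow_neg (by norm_num), Real.rpow_neg hn0.le]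
    exact inv_anti₀ (by positivity) (le_two_rpow _ (by positivity))
  set D : ℝ := (Fintype.card (Cl (Fin n) K) : ℝ) with hD
  have hDval : D = (2 * (n : ℝ)) ^ K := by
    rw [hD, card_cl]; push_cast; rfl
  have hD0 : 0 < D := by rw [hDval]; positivity
  have hDm : 0 < D ^ m := by positivity
  have hcR : 0 < (Fintype.card R : ℝ) := by exact_mod_cast Fintype.card_pos
  -- one circuit
  have hone : ∀ r : R,
      ((univ.filter fun x : Fin n → Bool => f r (oddFormula x) < 1).card : ℝ) * D ^ m +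
      ((univ.filter fun ω : Fin m → Cl (Fin n) K => 1 ≤ f r (univ.image ω)).card : ℝ) * 2 ^ n
        ≤ (1 + κ) * (2 ^ n * D ^ m) := by
    intro r
    have hA : ((univ.filter fun x : Fin n → Bool => f r (oddFormula x) < 1).card : ℝ) ≤ 2 ^ n := by
      have := card_filter_le (univ : Finset (Fin n → Bool)) fun x => f r (oddFormula x) < 1
      rw [card_univ, Fintype.card_fun, Fintype.card_fin, Fintype.card_bool] at this
      exact_mod_cast this
    have hB : ((univ.filter fun ω : Fin m → Cl (Fin n) K =>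
        1 ≤ f r (univ.image ω)).card : ℝ) ≤ D ^ m := by
      have h3 := card_filter_le (univ : Finset (Fin m → Cl (Fin n) K))
        fun ω => 1 ≤ f r (univ.image ω)
      have h4 : (univ : Finset (Fin m → Cl (Fin n) K)).card = Fintype.card (Cl (Fin n) K) ^ m := by
        rw [card_univ, Fintype.card_fun, Fintype.card_fin]
      rw [h4] at h3
      rw [hD]
      exact_mod_cast h3
    have h2n : (0 : ℝ) < 2 ^ n := by positivity
    rcases hN n ((le_max_left _ _).trans hn) m hm (l r) (hpf r).1 (hlt r) (f r) (hpf r).2 with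
      h5 | h5
    · simp only [not_le] at h5
      have h6 : ((univ.filter fun x : Fin n → Bool => f r (oddFormula x) < 1).card : ℝ) ≤
          κ * 2 ^ n := h5.trans (mul_le_mul_of_nonneg_right hκ2 h2n.le)
      nlinarith [mul_le_mul_of_nonneg_right h6 hDm.le, mul_le_mul_of_nonneg_right hB h2n.le]
    · have h6 : ((univ.filter fun ω : Fin m → Cl (Fin n) K =>
          1 ≤ f r (univ.image ω)).card : ℝ) ≤ κ * D ^ m := h5
      nlinarith [mul_le_mul_of_nonneg_right h6 h2n.le, mul_le_mul_of_nonneg_right hA hDm.le]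
  -- all circuits
  have hall : (∑ r : R, ((univ.filter fun x : Fin n → Bool =>
        f r (oddFormula x) < 1).card : ℝ)) * D ^ m +
      (∑ r : R, ((univ.filter fun ω : Fin m → Cl (Fin n) K =>
        1 ≤ f r (univ.image ω)).card : ℝ)) * 2 ^ n
        ≤ Fintype.card R * ((1 + κ) * (2 ^ n * D ^ m)) := by
    rw [Finset.sum_mul, Finset.sum_mul, ← Finset.sum_add_distrib]
    refine (Finset.sum_le_sum fun r _ => hone r).trans (le_of_eq ?_)
    rw [Finset.sum_const, card_univ, nsmul_eq_mul]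
  have hX : (1 / 2 + ξ) * Fintype.card R * 2 ^ n ≤
      ∑ r : R, ((univ.filter fun x : Fin n → Bool => f r (oddFormula x) < 1).card : ℝ) := by
    have h3 := sum_card_comm (R := R) (X := Fin n → Bool) fun r x => f r (oddFormula x) < 1
    have h4 : (∑ r : R, ((univ.filter fun x : Fin n → Bool => f r (oddFormula x) < 1).card : ℝ)) =
        ∑ x : Fin n → Bool, ((univ.filter fun r => f r (oddFormula x) < 1).card : ℝ) := by
      exact_mod_cast h3
    rw [h4]
    have h5 : ∑ _x : Fin n → Bool, ((1 / 2 + ξ) * Fintype.card R) ≤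
        ∑ x : Fin n → Bool, ((univ.filter fun r => f r (oddFormula x) < 1).card : ℝ) :=
      Finset.sum_le_sum fun x _ => hsat x
    refine le_trans (le_of_eq ?_) h5
    rw [Finset.sum_const, card_univ, Fintype.card_fun, Fintype.card_fin, Fintype.card_bool,
      nsmul_eq_mul]
    push_cast
    ring
  have hW : (1 / 2 + ξ) * Fintype.card R * ((1 - b) * D ^ m) ≤
      ∑ r : R, ((univ.filter fun ω : Fin m → Cl (Fin n) K =>
        1 ≤ f r (univ.image ω)).card : ℝ) := by
    have h3 := sum_card_comm (R := R) (X := Fin m → Cl (Fin n) K)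
      fun r ω => 1 ≤ f r (univ.image ω)
    have h4 : (∑ r : R, ((univ.filter fun ω : Fin m → Cl (Fin n) K =>
          1 ≤ f r (univ.image ω)).card : ℝ)) =
        ∑ ω : Fin m → Cl (Fin n) K, ((univ.filter fun r => 1 ≤ f r (univ.image ω)).card : ℝ) := by
      exact_mod_cast h3
    rw [h4]
    have h5 : ∑ _ω ∈ W, ((1 / 2 + ξ) * (Fintype.card R : ℝ)) ≤
        ∑ ω : Fin m → Cl (Fin n) K, ((univ.filter fun r => 1 ≤ f r (univ.image ω)).card : ℝ) := by
      refine (Finset.sum_le_sum fun ω hω => hWf ω hω).trans ?_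
      exact Finset.sum_le_sum_of_subset_of_nonneg (subset_univ _)
        fun _ _ _ => Nat.cast_nonneg _
    refine le_trans ?_ h5
    rw [Finset.sum_const, nsmul_eq_mul]
    have h9 : 0 ≤ (1 / 2 + ξ) * (Fintype.card R : ℝ) := by positivity
    nlinarith [mul_le_mul_of_nonneg_left hWc h9]
  have h2n : (0 : ℝ) < 2 ^ n := by positivity
  have k1 := mul_le_mul_of_nonneg_right hX hDm.le
  have k2 := mul_le_mul_of_nonneg_right hW h2n.le
  have k3 : (1 / 2 + ξ) * Fintype.card R * 2 ^ n * D ^ m +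
      (1 / 2 + ξ) * Fintype.card R * ((1 - b) * D ^ m) * 2 ^ n ≤
      Fintype.card R * ((1 + κ) * (2 ^ n * D ^ m)) := by linarith
  have k4 : (Fintype.card R : ℝ) * (2 ^ n * D ^ m) * ((1 / 2 + ξ) + (1 / 2 + ξ) * (1 - b)) ≤
      (Fintype.card R : ℝ) * (2 ^ n * D ^ m) * (1 + κ) := by
    calc _ = (1 / 2 + ξ) * Fintype.card R * 2 ^ n * D ^ m +
      (1 / 2 + ξ) * Fintype.card R * ((1 - b) * D ^ m) * 2 ^ n := by ring
      _ ≤ _ := k3
      _ = _ := by ring
  have k5 : (1 / 2 + ξ) + (1 / 2 + ξ) * (1 - b) ≤ 1 + κ :=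
    le_of_mul_le_mul_left k4 (by positivity)
  nlinarith

end H630MC
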