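import Pool.Agent.H630MC.Cnt
import Pool.Agent.H630MC.Rand

/-! The gap theorem for tables, general form (helper630) -/

open scoped Classical
open Finset Filter

namespace H630MC

open H630VC (Prog Mono2)
open H630XR

theorem gap_tables (K : ℕ) (hK : 1 ≤ K) (δ ν ξ : ℝ) (hν : 0 < ν) (hξ : 0 < ξ)
    (h : (3 * K + 1) * ν < δ) :
    ∃ N : ℕ, ∀ k : ℕ, N ≤ k → ∀ m : ℕ, (m : ℝ) ≤ ((2 : ℝ) ^ k) ^ ((K : ℝ) / 2 - δ) →
      ∀ G : Finset ((Fin (K * k) → Bool) → Bool),
      (G.card : ℝ) ≤ ξ / (1 + 2 * ξ) / 2 * 2 ^ m →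
      ∀ (R : Type) [Fintype R] [Nonempty R]
      (l : R → List (((Fin (K * k) → Bool) → Option Bool) → ℝ))
      (f : R → ((Fin (K * k) → Bool) → Option Bool) → ℝ),
      (∀ r, Prog (tabInputs (K * k)) (l r) ∧ f r ∈ l r) →
      (∀ y : (Fin k → Bool) → Bool,
        (1 / 2 + ξ) * Fintype.card R ≤
          (univ.filter fun r => f r (fun x => some (lk y x)) < 1).card) →
      (∀ T : (Fin (K * k) → Bool) → Option Bool, (∀ g ∈ G, ∃ x b, T x = some b ∧ g x ≠ b) →
        (1 / 2 + ξ) * Fintype.card R ≤ (univ.filter fun r => 1 ≤ f r T).card) →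
      ∃ r, (2 : ℝ) ^ (((2 : ℝ) ^ k) ^ ν) < (l r).length := by
  -- a slightly larger exponent
  have hK0 : (0 : ℝ) < 3 * K + 1 := by positivity
  obtain ⟨ν', hν1, hν2⟩ : ∃ ν', ν < ν' ∧ (3 * K + 1) * ν' < δ := by
    have h1 : ν < δ / (3 * K + 1) := by
      rw [lt_div_iff₀ hK0]; linarith
    obtain ⟨ν', h2, h3⟩ := exists_between h1
    refine ⟨ν', h2, ?_⟩
    rw [lt_div_iff₀ hK0] at h3
    linarith
  have hν'0 : 0 < ν' := hν.trans hν1
  have hδ0 : 0 < δ := lt_trans (by positivity) h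
  obtain ⟨N, hN⟩ := dich_rand K hK δ ν' ξ hν'0 hξ hν2
  set b : ℝ := ξ / (1 + 2 * ξ) with hb
  have hb0 : 0 < b := by positivity
  have hpow : Tendsto (fun k : ℕ => (2 : ℝ) ^ k) atTop atTop :=
    tendsto_pow_atTop_atTop_of_one_lt (by norm_num)
  have e1 : ∀ᶠ k : ℕ in atTop, 2 / b ≤ ((2 : ℝ) ^ k) ^ (2 * δ) :=
    ((tendsto_rpow_atTop (by positivity)).comp hpow).eventually_ge_atTop _
  have e2 : ∀ᶠ k : ℕ in atTop, (K : ℝ) + 3 ≤ ((2 : ℝ) ^ k) ^ (ν' - ν) :=
    ((tendsto_rpow_atTop (by linarith)).comp hpow).eventually_ge_atTop _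
  obtain ⟨N1, hN1⟩ := (e1.and e2).exists_forall_of_atTop
  refine ⟨max N N1, fun k hk m hm G hG R _ _ l f hpf heasy hhard => ?_⟩
  obtain ⟨h1, h2⟩ := hN1 k ((le_max_right _ _).trans hk)
  have hkN : N ≤ 2 ^ k := ((le_max_left _ _).trans hk).trans Nat.lt_two_pow_self.le
  have hcast : ((2 ^ k : ℕ) : ℝ) = (2 : ℝ) ^ k := by push_cast; rfl
  set M : ℝ := (2 : ℝ) ^ k with hM
  have hM1 : 1 ≤ M := one_le_pow₀ (by norm_num)
  have hM0 : 0 < M := by linarith
  -- the circuits on formulas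
  choose l' hl' hlen hmap using fun r => transfer (K := K) (k := k) (hpf r).1
  choose f' hf' hF' using fun r => hmap r (f r) (hpf r).2
  have key := hN (2 ^ k) hkN m (by rw [hcast]; exact hm) R l' f' (fun r => ⟨hl' r, hf' r⟩) ?_
    (univ.filter fun ω : Fin m → Cl (Fin (2 ^ k)) K => Hard G (univ.image ω)) ?_ ?_
  · obtain ⟨r, hr⟩ := key
    refine ⟨r, ?_⟩
    rw [hcast] at hr
    have h3 : ((l' r).length : ℝ) ≤ (2 * 2 ^ K + 1) * (l r).length := by
      exact_mod_cast hlen r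
    have h4 : (2 : ℝ) * 2 ^ K + 1 ≤ 2 ^ ((K : ℝ) + 2) := by
      have h5 : (2 : ℝ) ^ ((K : ℝ) + 2) = 2 ^ K * 4 := by
        rw [Real.rpow_add (by norm_num), Real.rpow_natCast]
        norm_num
      rw [h5]
      have : (1 : ℝ) ≤ 2 ^ K := one_le_pow₀ (by norm_num)
      linarith
    have h6 : M ^ ν + ((K : ℝ) + 2) ≤ M ^ ν' := by
      have h7 : M ^ ν' = M ^ ν * M ^ (ν' - ν) := by
        rw [← Real.rpow_add hM0]; congr 1; ring
      have h8 : 1 ≤ M ^ ν := Real.one_le_rpow hM1 hν.le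
      rw [h7]
      nlinarith
    have h9 : (2 : ℝ) ^ (M ^ ν) * 2 ^ ((K : ℝ) + 2) ≤ 2 ^ (M ^ ν') := by
      rw [← Real.rpow_add (by norm_num)]
      exact Real.rpow_le_rpow_of_exponent_le (by norm_num) h6
    have h10 : (2 : ℝ) ^ (M ^ ν) * 2 ^ ((K : ℝ) + 2) < 2 ^ ((K : ℝ) + 2) * (l r).length :=
      calc (2 : ℝ) ^ (M ^ ν) * 2 ^ ((K : ℝ) + 2) ≤ 2 ^ (M ^ ν') := h9
        _ < (l' r).length := hr
        _ ≤ (2 * 2 ^ K + 1) * (l r).length := h3
        _ ≤ 2 ^ ((K : ℝ) + 2) * (l r).length :=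
            mul_le_mul_of_nonneg_right h4 (Nat.cast_nonneg _)
    have h11 : (0 : ℝ) < 2 ^ ((K : ℝ) + 2) := by positivity
    rw [mul_comm] at h10
    exact lt_of_mul_lt_mul_left h10 h11.le
  · -- satisfiable formulas
    intro x
    have h3 := heasy (fun z => x ((en k).symm z))
    refine h3.trans (le_of_eq ?_)
    congr 1
    congr 1
    refine Finset.filter_congr fun r _ => ?_
    have h4 : (fun v => (fun z => x ((en k).symm z)) (en k v)) = x := by
      funext v; simp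
    have h5 := cons_odd (K := K) (k := k) (fun z => x ((en k).symm z))
    have h6 := tab_odd hK (fun z => x ((en k).symm z))
    rw [h4] at h5 h6
    rw [hF' r _ h5, h6]
  · -- the number of hard formulas
    have h3 := card_not_hard hK m G (k := k)
    have h4 := Finset.card_filter_add_card_filter_not
      (s := (univ : Finset (Fin m → Cl (Fin (2 ^ k)) K))) (fun ω => Hard G (univ.image ω))
    rw [card_univ, Fintype.card_fun, Fintype.card_fin] at h4
    set D : ℝ := (Fintype.card (Cl (Fin (2 ^ k)) K) : ℝ) with hD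
    have h5 : ((univ.filter fun ω : Fin m → Cl (Fin (2 ^ k)) K =>
        Hard G (univ.image ω)).card : ℝ) + ((univ.filter fun ω : Fin m → Cl (Fin (2 ^ k)) K =>
        ¬ Hard G (univ.image ω)).card : ℝ) = D ^ m := by
      rw [hD]; exact_mod_cast h4
    have hDval : D = 2 ^ K * M ^ K := by
      rw [hD, card_cl]; push_cast; rw [mul_pow]
    have hDm : 0 ≤ D ^ m := by rw [hDval]; positivity
    have h6 : (m : ℝ) ^ 2 * 2 ^ K / D ≤ b / 2 := by
      have h7 : (m : ℝ) ^ 2 ≤ (M ^ ((K : ℝ) / 2 - δ)) ^ 2 :=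
        pow_le_pow_left₀ (Nat.cast_nonneg _) hm 2
      have h8 : (M ^ ((K : ℝ) / 2 - δ)) ^ 2 * M ^ (2 * δ) = M ^ K := by
        rw [← Real.rpow_natCast (M ^ ((K : ℝ) / 2 - δ)) 2, ← Real.rpow_mul hM0.le,
          ← Real.rpow_add hM0, ← Real.rpow_natCast M K]
        congr 1
        push_cast
        ring
      have h9 : 2 / b * (m : ℝ) ^ 2 ≤ M ^ K := by
        rw [← h8]
        calc 2 / b * (m : ℝ) ^ 2 ≤ M ^ (2 * δ) * (M ^ ((K : ℝ) / 2 - δ)) ^ 2 :=
              mul_le_mul h1 h7 (by positivity) (by positivity)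
          _ = _ := by ring
      rw [hDval, div_le_iff₀ (by positivity)]
      have h10 : (m : ℝ) ^ 2 ≤ b / 2 * M ^ K := by
        have h11 : (m : ℝ) ^ 2 = b / 2 * (2 / b * (m : ℝ) ^ 2) := by field_simp
        rw [h11]
        exact mul_le_mul_of_nonneg_left h9 (by positivity)
      calc (m : ℝ) ^ 2 * 2 ^ K ≤ (b / 2 * M ^ K) * 2 ^ K :=
            mul_le_mul_of_nonneg_right h10 (by positivity)
        _ = _ := by ring
    have h7 : (G.card : ℝ) / 2 ^ m ≤ b / 2 := by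
      rw [div_le_iff₀ (by positivity)]
      exact hG
    have h8 := mul_le_mul_of_nonneg_right (add_le_add h6 h7) hDm
    have h9 : (b / 2 + b / 2) = b := by ring
    rw [h9] at h8
    have h12 := h3.trans h8
    nlinarith
  · -- hard formulas
    intro ω hω
    obtain ⟨hc, hh⟩ := (mem_filter.1 hω).2
    refine (hhard _ hh).trans (le_of_eq ?_)
    congr 1
    congr 1
    refine Finset.filter_congr fun r _ => ?_
    rw [hF' r _ hc]

end H630MC
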