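import Pool.Agent.H630XR.Model
import Pool.Agent.H630XR.Defs

/-! Formulas and partial truth tables (helper630) -/

open scoped Classical
open Finset

namespace H630MC

open H630VC (Prog Mono2)
open H630XR

/-- the inputs of the circuits on partial truth tables: the bits `T x = b`, and real constants -/
def tabInputs (n : ℕ) : Set (((Fin n → Bool) → Option Bool) → ℝ) :=
  {f | (∃ (x : Fin n → Bool) (b : Bool), f = fun T => if T x = some b then 1 else 0) ∨
    ∃ a : ℝ, f = fun _ => a}

/-- block `i` of `x` -/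
def blk {K k : ℕ} (x : Fin (K * k) → Bool) (i : Fin K) : Fin k → Bool :=
  fun j => x (finProdFinEquiv (i, j))

/-- the parity of `K` table lookups -/
noncomputable def lk {K k : ℕ} (y : (Fin k → Bool) → Bool) (x : Fin (K * k) → Bool) : Bool :=
  decide (Odd (univ.filter fun i : Fin K => y (blk x i) = true).card)

/-- numbering of the points -/
noncomputable def en (k : ℕ) : Fin (2 ^ k) ≃ (Fin k → Bool) :=
  (Fintype.equivFinOfCardEq (by simp)).symm

/-- the point of a clause -/
noncomputable def pt {K k : ℕ} (c : Cl (Fin (2 ^ k)) K) : Fin (K * k) → Bool :=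
  fun t => en k (c (finProdFinEquiv.symm t).1).1 (finProdFinEquiv.symm t).2

/-- the value of a clause -/
noncomputable def vl {K k : ℕ} (c : Cl (Fin (2 ^ k)) K) : Bool :=
  decide (Even (K + (univ.filter fun i : Fin K => (c i).2 = true).card))

theorem blk_pt {K k : ℕ} (c : Cl (Fin (2 ^ k)) K) (i : Fin K) : blk (pt c) i = en k (c i).1 := by
  funext j
  simp [blk, pt]

/-- the translation of parity clauses -/
theorem oddSat_iff {K k : ℕ} (y : (Fin k → Bool) → Bool) (c : Cl (Fin (2 ^ k)) K) :
    OddSat (fun v => y (en k v)) c ↔ lk y (pt c) = vl c := by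
  unfold OddSat lk vl
  simp only [blk_pt]
  have h : ∀ i : Fin K, (if y (en k (c i).1) = (c i).2 then 1 else 0) +
      ((if y (en k (c i).1) = true then 1 else 0) + (if (c i).2 = true then 1 else 0)) =
      1 + 2 * (if y (en k (c i).1) = true ∧ (c i).2 = true then 1 else 0) := by
    intro i
    cases y (en k (c i).1) <;> cases (c i).2 <;> simp
  have hs := Finset.sum_congr (rfl : (univ : Finset (Fin K)) = univ) fun i _ => h i
  simp only [Finset.sum_add_distrib, ← Finset.mul_sum, ← Finset.card_filter] at hs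
  simp only [sum_const, card_univ, Fintype.card_fin, smul_eq_mul, mul_one] at hs
  rw [decide_eq_decide]
  rw [Nat.odd_iff, Nat.odd_iff, Nat.even_iff]
  omega

/-- no two clauses contradict each other -/
def Cons {K k : ℕ} (F : Finset (Cl (Fin (2 ^ k)) K)) : Prop :=
  ∀ c ∈ F, ∀ c' ∈ F, pt c = pt c' → vl c = vl c'

/-- the partial truth table of a formula -/
noncomputable def tab {K k : ℕ} (F : Finset (Cl (Fin (2 ^ k)) K)) :
    (Fin (K * k) → Bool) → Option Bool := fun x =>
  if ∃ c ∈ F, pt c = x ∧ vl c = true then some true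
  else if ∃ c ∈ F, pt c = x ∧ vl c = false then some false else none

theorem tab_iff {K k : ℕ} {F : Finset (Cl (Fin (2 ^ k)) K)} (hF : Cons F)
    (x : Fin (K * k) → Bool) (b : Bool) :
    tab F x = some b ↔ ∃ c ∈ F, pt c = x ∧ vl c = b := by
  unfold tab
  by_cases h1 : ∃ c ∈ F, pt c = x ∧ vl c = true
  · rw [if_pos h1]
    obtain ⟨c, hc, hx, hv⟩ := h1
    constructor
    · intro h
      have hb : b = true := by simpa using h.symm
      exact ⟨c, hc, hx, by rw [hv, hb]⟩
    · rintro ⟨c', hc', hx', hv'⟩
      have := hF c hc c' hc' (hx.trans hx'.symm)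
      rw [hv, hv'] at this
      rw [this]
  · rw [if_neg h1]
    by_cases h2 : ∃ c ∈ F, pt c = x ∧ vl c = false
    · rw [if_pos h2]
      obtain ⟨c, hc, hx, hv⟩ := h2
      constructor
      · intro h
        have hb : b = false := by simpa using h.symm
        exact ⟨c, hc, hx, by rw [hv, hb]⟩
      · rintro ⟨c', hc', hx', hv'⟩
        have := hF c hc c' hc' (hx.trans hx'.symm)
        rw [hv, hv'] at this
        rw [this]
    · rw [if_neg h2]
      constructor
      · intro h; simp at h
      · rintro ⟨c', hc', hx', hv'⟩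
        exfalso
        cases b
        · exact h2 ⟨c', hc', hx', hv'⟩
        · exact h1 ⟨c', hc', hx', hv'⟩

theorem cons_odd {K k : ℕ} (y : (Fin k → Bool) → Bool) :
    Cons (oddFormula (fun v => y (en k v)) : Finset (Cl (Fin (2 ^ k)) K)) := by
  intro c hc c' hc' hpt
  have h1 := (oddSat_iff y c).1 (mem_filter.1 hc).2
  have h2 := (oddSat_iff y c').1 (mem_filter.1 hc').2
  rw [← h1, ← h2, hpt]

/-- the table of the satisfiable formula of `y` -/
theorem tab_odd {K k : ℕ} (hK : 1 ≤ K) (y : (Fin k → Bool) → Bool) :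
    tab (oddFormula (fun v => y (en k v)) : Finset (Cl (Fin (2 ^ k)) K)) =
      fun x => some (lk y x) := by
  funext x
  rw [tab_iff (cons_odd y)]
  -- a clause for the point `x` with exactly one true literal
  set c : Cl (Fin (2 ^ k)) K := fun i => ((en k).symm (blk x i),
    if i = ⟨0, hK⟩ then y (blk x i) else !(y (blk x i))) with hc
  have hpt : pt c = x := by
    funext t
    simp only [pt, hc, Equiv.apply_symm_apply, blk]
    rw [Prod.mk.eta, Equiv.apply_symm_apply]
  have hodd : OddSat (fun v => y (en k v)) c := by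
    unfold OddSat
    have h1 : (univ.filter fun i => y (en k (c i).1) = (c i).2) = {⟨0, hK⟩} := by
      ext i
      simp only [mem_filter, mem_univ, true_and, mem_singleton, hc, Equiv.apply_symm_apply]
      by_cases hi : i = ⟨0, hK⟩
      · simp [hi]
      · simp only [hi, if_false, iff_false]
        cases y (blk x i) <;> simp
    rw [h1, card_singleton]
    exact odd_one
  refine ⟨c, ?_, hpt, ?_⟩
  · rw [oddFormula, mem_filter]
    exact ⟨mem_univ _, hodd⟩
  · have h2 := (oddSat_iff y c).1 hodd
    rw [hpt] at h2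
    exact h2.symm

/-- the disjunction of input bits -/
theorem exists_or {K M : ℕ} (cs : List (Cl (Fin M) K)) :
    ∀ l₀ : List (Finset (Cl (Fin M) K) → ℝ), Prog (cnfInputs (Fin M) K) l₀ →
    ∃ l : List (Finset (Cl (Fin M) K) → ℝ), Prog (cnfInputs (Fin M) K) l ∧
      l.length ≤ l₀.length + (2 * cs.length + 1) ∧ l₀ ⊆ l ∧
      (fun F => if ∃ c ∈ cs, c ∈ F then (1 : ℝ) else 0) ∈ l := by
  induction cs with
  | nil =>
    intro l₀ h₀
    refine ⟨(fun _ => 0) :: l₀, Prog.input h₀ (Or.inr ⟨0, rfl⟩), by simp,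
      List.subset_cons_self _ _, ?_⟩
    simp
  | cons c cs ih =>
    intro l₀ h₀
    obtain ⟨l, hl, hlen, hsub, hmem⟩ := ih l₀ h₀
    have h1 : Prog (cnfInputs (Fin M) K) ((fun F => if c ∈ F then (1 : ℝ) else 0) :: l) :=
      Prog.input hl (Or.inl ⟨c, by funext F; by_cases h : c ∈ F <;> simp [h]⟩)
    have h2 := Prog.gate (φ := fun a b => max a b) h1
      (fun a a' b b' ha hb => max_le_max ha hb) (List.mem_cons_self)
      (List.mem_cons_of_mem _ hmem)
    refine ⟨_, h2, ?_, ?_, ?_⟩
    · simp only [List.length_cons]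
      omega
    · intro f hf
      exact List.mem_cons_of_mem _ (List.mem_cons_of_mem _ (hsub hf))
    · have e : (fun F : Finset (Cl (Fin M) K) => if ∃ d ∈ c :: cs, d ∈ F then (1 : ℝ) else 0) =
          fun F => max (if c ∈ F then (1 : ℝ) else 0)
            (if ∃ d ∈ cs, d ∈ F then (1 : ℝ) else 0) := by
        funext F
        by_cases h3 : c ∈ F <;> by_cases h4 : ∃ d ∈ cs, d ∈ F <;> simp [h3, h4]
      rw [e]
      exact List.mem_cons_self

/-- few clauses belong to an entry of the table -/
theorem card_fiber {K k : ℕ} (x : Fin (K * k) → Bool) (b : Bool) :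
    (univ.filter fun c : Cl (Fin (2 ^ k)) K => pt c = x ∧ vl c = b).card ≤ 2 ^ K := by
  have h : (univ : Finset (Fin K → Bool)).card = 2 ^ K := by simp
  rw [← h]
  refine card_le_card_of_injOn (fun c i => (c i).2) (fun _ _ => Finset.mem_coe.2 (mem_univ _)) ?_
  intro c hc c' hc' heq
  have h1 := (mem_filter.1 (Finset.mem_coe.1 hc)).2.1
  have h2 := (mem_filter.1 (Finset.mem_coe.1 hc')).2.1
  funext i
  refine Prod.ext ?_ (congrFun heq i)
  have h3 : blk (pt c) i = blk (pt c') i := by rw [h1, h2]
  rw [blk_pt, blk_pt] at h3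
  exact (en k).injective h3

/-- circuits on tables yield circuits on formulas -/
theorem transfer {K k : ℕ} {l : List (((Fin (K * k) → Bool) → Option Bool) → ℝ)}
    (hl : Prog (tabInputs (K * k)) l) :
    ∃ l' : List (Finset (Cl (Fin (2 ^ k)) K) → ℝ), Prog (cnfInputs (Fin (2 ^ k)) K) l' ∧
      l'.length ≤ (2 * 2 ^ K + 1) * l.length ∧
      ∀ f ∈ l, ∃ f' ∈ l', ∀ F, Cons F → f' F = f (tab F) := by
  induction hl with
  | nil => exact ⟨[], Prog.nil, by simp, by simp⟩
  | @input l f _ hf ih =>
    obtain ⟨l', hl', hlen, hmap⟩ := ih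
    rcases hf with ⟨x, b, rfl⟩ | ⟨a, rfl⟩
    · obtain ⟨l'', hl'', hlen'', hsub, hmem⟩ := exists_or
        (univ.filter fun c : Cl (Fin (2 ^ k)) K => pt c = x ∧ vl c = b).toList l' hl'
      rw [Finset.length_toList] at hlen''
      have hfib := card_fiber (K := K) (k := k) x b
      refine ⟨l'', hl'', ?_, ?_⟩
      · rw [List.length_cons]
        calc l''.length ≤ l'.length + (2 * _ + 1) := hlen''
          _ ≤ (2 * 2 ^ K + 1) * l.length + (2 * 2 ^ K + 1) := by
              have : 2 * (univ.filter fun c : Cl (Fin (2 ^ k)) K => pt c = x ∧ vl c = b).card + 1 ≤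
                2 * 2 ^ K + 1 := by omega
              exact Nat.add_le_add hlen this
          _ = _ := by ring
      · intro g hg
        rcases List.mem_cons.1 hg with rfl | hg
        · refine ⟨_, hmem, fun F hF => ?_⟩
          simp only [Finset.mem_toList, mem_filter, mem_univ, true_and]
          have e : (∃ c, (pt c = x ∧ vl c = b) ∧ c ∈ F) ↔ tab F x = some b := by
            rw [tab_iff hF]
            constructor
            · rintro ⟨c, h1, h2⟩; exact ⟨c, h2, h1⟩
            · rintro ⟨c, h2, h1⟩; exact ⟨c, h1, h2⟩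
          by_cases h5 : tab F x = some b
          · rw [if_pos h5, if_pos (e.2 h5)]
          · rw [if_neg h5, if_neg (fun h => h5 (e.1 h))]
        · obtain ⟨f', hf', hF'⟩ := hmap g hg
          exact ⟨f', hsub hf', hF'⟩
    · refine ⟨(fun _ => a) :: l', Prog.input hl' (Or.inr ⟨a, rfl⟩), ?_, ?_⟩
      · simp only [List.length_cons]
        nlinarith [Nat.one_le_two_pow (n := K)]
      · intro g hg
        rcases List.mem_cons.1 hg with rfl | hg
        · exact ⟨_, List.mem_cons_self, fun _ _ => rfl⟩
        · obtain ⟨f', hf', hF'⟩ := hmap g hg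
          exact ⟨f', List.mem_cons_of_mem _ hf', hF'⟩
  | @gate l φ f g _ hφ hf hg ih =>
    obtain ⟨l', hl', hlen, hmap⟩ := ih
    obtain ⟨f', hf', hF⟩ := hmap f hf
    obtain ⟨g', hg', hG⟩ := hmap g hg
    refine ⟨_, Prog.gate hl' hφ hf' hg', ?_, ?_⟩
    · simp only [List.length_cons]
      nlinarith [Nat.one_le_two_pow (n := K)]
    · intro h hh
      rcases List.mem_cons.1 hh with rfl | hh
      · refine ⟨_, List.mem_cons_self, fun F hc => ?_⟩
        simp only [hF F hc, hG F hc]
      · obtain ⟨h', hh', hH⟩ := hmap h hh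
        exact ⟨h', List.mem_cons_of_mem _ hh', hH⟩

end H630MC
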