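import Pool.Agent.H630MC.Gen
import Pool.Agent.H589R2.BPs

/-! Parities of table lookups have small circuits and branching programs (helper630) -/

open scoped Classical
open Finset Filter

namespace H630MC

open Pool.Agent.H589R2

/-- lookup in a table with few relevant coordinates: circuits -/
theorem cost_lookup {n o : ℕ} : ∀ j, o + j ≤ n → ∀ G : (ℕ → Bool) → Bool,
    (∀ u v, (∀ t < j, u t = v t) → G u = G v) →
    Cost ({fun _ => false} : Set (Fn n)) {fun x => G fun t => co n (o + t) x} (3 * 2 ^ j - 3) := by
  intro j
  induction j with
  | zero =>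
    intro _ G hG
    have h : (fun x : Fin n → Bool => G fun t => co n (o + t) x) = fun _ => G fun _ => false := by
      funext x
      exact hG _ _ (fun t ht => absurd ht (Nat.not_lt_zero t))
    rw [h]
    have hc : ∀ c : Bool, Cost ({fun _ => false} : Set (Fn n)) {fun _ => c} 0 := by
      intro c
      cases c with
      | false => exact Cost.sub (le_refl _)
      | true =>
        have h0 : Cost ({fun _ => false} : Set (Fn n)) {fun _ => false} 0 := Cost.sub (le_refl _)
        exact h0.neg
    exact (hc _).mono (le_refl _) (le_refl _) (by omega)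
  | succ j ih =>
    intro hj G hG
    have key : ∀ b : Bool, ∀ u v : ℕ → Bool, (∀ t < j, u t = v t) →
        G (Function.update u j b) = G (Function.update v j b) := by
      intro b u v huv
      refine hG _ _ fun t ht => ?_
      by_cases htj : t = j
      · subst htj; simp
      · rw [Function.update_of_ne htj, Function.update_of_ne htj]
        exact huv t (by omega)
    have h1 := ih (by omega) (fun u => G (Function.update u j true)) (key true)
    have h0 := ih (by omega) (fun u => G (Function.update u j false)) (key false)
    have h2 := Cost.mux (n := n) (k := o + j) (by omega) h1 h0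
    have e : (fun x : Fin n → Bool => if co n (o + j) x = true then
        G (Function.update (fun t => co n (o + t) x) j true) else
        G (Function.update (fun t => co n (o + t) x) j false)) =
        fun x => G fun t => co n (o + t) x := by
      funext x
      by_cases hx : co n (o + j) x = true
      · rw [if_pos hx]
        congr 1
        rw [← hx]
        exact Function.update_eq_self j fun t => co n (o + t) x
      · rw [if_neg hx]
        congr 1
        rw [Bool.not_eq_true] at hx
        rw [← hx]
        exact Function.update_eq_self j fun t => co n (o + t) x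
    rw [e] at h2
    refine h2.mono (le_refl _) (le_refl _) ?_
    have : 1 ≤ 2 ^ j := Nat.one_le_two_pow
    rw [pow_succ]
    omega

/-- branching programs: selection by a variable -/
theorem bcost_mux {n i : ℕ} (hi : i < n) {f g : Fn n} {t1 t2 : ℕ} (hf : BCost f t1)
    (hg : BCost g t2) : BCost (fun x => if co n i x then f x else g x) (t1 + t2 + 1) := by
  intro k B h1 h0 m1 m0
  obtain ⟨k1, hk1, B1, a1, b1⟩ := hf k B h1 h0 m1 m0
  obtain ⟨k2, hk2, B2, a2, b2⟩ := hg k1 B1 h1 h0 (a1 m1) (a1 m0)
  obtain ⟨B3, a3, b3⟩ := B2.av_node hi (a2 b1) b2
  refine ⟨k2 + 1, by omega, B3, (a1.trans a2).trans a3, ?_⟩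
  have e : (fun x => if (if co n i x = true then f x else g x) = true then h1 x else h0 x) =
      fun x => if co n i x = true then (if f x = true then h1 x else h0 x)
        else (if g x = true then h1 x else h0 x) := by
    funext x
    cases co n i x <;> simp
  rw [e]
  exact b3

/-- lookup in a table with few relevant coordinates: branching programs -/
theorem bcost_lookup {n o : ℕ} : ∀ j, o + j ≤ n → ∀ G : (ℕ → Bool) → Bool,
    (∀ u v, (∀ t < j, u t = v t) → G u = G v) →
    BCost (fun x : Fin n → Bool => G fun t => co n (o + t) x) (2 ^ j - 1) := by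
  intro j
  induction j with
  | zero =>
    intro _ G hG
    have h : (fun x : Fin n → Bool => G fun t => co n (o + t) x) = fun _ => G fun _ => false := by
      funext x
      exact hG _ _ (fun t ht => absurd ht (Nat.not_lt_zero t))
    rw [h]
    exact BCost.const _
  | succ j ih =>
    intro hj G hG
    have key : ∀ b : Bool, ∀ u v : ℕ → Bool, (∀ t < j, u t = v t) →
        G (Function.update u j b) = G (Function.update v j b) := by
      intro b u v huv
      refine hG _ _ fun t ht => ?_
      by_cases htj : t = j
      · subst htj; simp
      · rw [Function.update_of_ne htj, Function.update_of_ne htj]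
        exact huv t (by omega)
    have h1 := ih (by omega) (fun u => G (Function.update u j true)) (key true)
    have h0 := ih (by omega) (fun u => G (Function.update u j false)) (key false)
    have h2 := bcost_mux (n := n) (i := o + j) (by omega) h1 h0
    have e : (fun x : Fin n → Bool => if co n (o + j) x = true then
        G (Function.update (fun t => co n (o + t) x) j true) else
        G (Function.update (fun t => co n (o + t) x) j false)) =
        fun x => G fun t => co n (o + t) x := by
      funext x
      by_cases hx : co n (o + j) x = true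
      · rw [if_pos hx]
        congr 1
        rw [← hx]
        exact Function.update_eq_self j fun t => co n (o + t) x
      · rw [if_neg hx]
        congr 1
        rw [Bool.not_eq_true] at hx
        rw [← hx]
        exact Function.update_eq_self j fun t => co n (o + t) x
    rw [e] at h2
    refine h2.mono ?_
    have : 1 ≤ 2 ^ j := Nat.one_le_two_pow
    rw [pow_succ]
    omega

/-- the function of a block in terms of coordinates -/
theorem blk_eq {K k : ℕ} (y : (Fin k → Bool) → Bool) (i : Fin K) :
    (fun x : Fin (K * k) → Bool => y (blk x i)) =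
      fun x => (fun u : ℕ → Bool => y fun t : Fin k => u t) fun t => co (K * k) (k * i + t) x := by
  funext x
  have h : ∀ t : Fin k, co (K * k) (k * i + t) x = blk x i t := by
    intro t
    have h1 : k * i + t < K * k := by
      have h2 : (i : ℕ) + 1 ≤ K := i.2
      calc k * i + t < k * i + k := by omega
        _ = k * (i + 1) := by ring
        _ ≤ k * K := Nat.mul_le_mul_left _ h2
        _ = K * k := Nat.mul_comm _ _
    unfold co blk
    rw [dif_pos h1]
    congr 1
    apply Fin.ext
    simp [finProdFinEquiv, add_comm]
  simp only [h]

theorem blk_pos {K k : ℕ} (i : Fin K) : k * i + k ≤ K * k := by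
  have h2 : (i : ℕ) + 1 ≤ K := i.2
  calc k * i + k = k * (i + 1) := by ring
    _ ≤ k * K := Nat.mul_le_mul_left _ h2
    _ = K * k := Nat.mul_comm _ _

/-- parity of the first `j` lookups -/
noncomputable def par {K k : ℕ} (y : (Fin k → Bool) → Bool) (j : ℕ) (x : Fin (K * k) → Bool) :
    Bool :=
  decide (Odd (univ.filter fun i : Fin K => i.1 < j ∧ y (blk x i) = true).card)

theorem par_zero {K k : ℕ} (y : (Fin k → Bool) → Bool) :
    (par y 0 : (Fin (K * k) → Bool) → Bool) = fun _ => false := by
  funext x
  simp [par]

theorem par_last {K k : ℕ} (y : (Fin k → Bool) → Bool) :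
    (par y K : (Fin (K * k) → Bool) → Bool) = lk y := by
  funext x
  simp [par, lk]

theorem par_succ {K k : ℕ} (y : (Fin k → Bool) → Bool) (j : ℕ) (hj : j < K) :
    (par y (j + 1) : (Fin (K * k) → Bool) → Bool) =
      fun x => xor (par y j x) (y (blk x ⟨j, hj⟩)) := by
  funext x
  unfold par
  by_cases h : y (blk x ⟨j, hj⟩) = true
  · have h1 : (univ.filter fun i : Fin K => i.1 < j + 1 ∧ y (blk x i) = true) =
        insert ⟨j, hj⟩ (univ.filter fun i : Fin K => i.1 < j ∧ y (blk x i) = true) := by
      ext i
      simp only [mem_filter, mem_univ, true_and, mem_insert]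
      constructor
      · rintro ⟨h2, h3⟩
        by_cases h4 : i.1 = j
        · left; exact Fin.ext h4
        · right; exact ⟨by omega, h3⟩
      · rintro (rfl | ⟨h2, h3⟩)
        · exact ⟨by simp, h⟩
        · exact ⟨by omega, h3⟩
    rw [h1, card_insert_of_notMem (by simp), h]
    by_cases h5 : Odd (univ.filter fun i : Fin K => i.1 < j ∧ y (blk x i) = true).card
    · simp [h5, Nat.odd_add_one]
    · simp [h5, Nat.odd_add_one]
  · have h1 : (univ.filter fun i : Fin K => i.1 < j + 1 ∧ y (blk x i) = true) =
        (univ.filter fun i : Fin K => i.1 < j ∧ y (blk x i) = true) := by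
      ext i
      simp only [mem_filter, mem_univ, true_and]
      constructor
      · rintro ⟨h2, h3⟩
        refine ⟨?_, h3⟩
        by_contra h4
        have h5 : i = ⟨j, hj⟩ := Fin.ext (by simp; omega)
        exact h (h5 ▸ h3)
      · rintro ⟨h2, h3⟩
        exact ⟨by omega, h3⟩
    rw [Bool.not_eq_true] at h
    rw [h1, h, Bool.xor_false]

theorem lk_circuit {K k : ℕ} (hn : 0 < K * k) (y : (Fin k → Bool) → Bool) :
    ∃ C : Circuit (K * k), C.size ≤ 3 * K * 2 ^ k + 1 ∧ C.eval = lk y := by
  have key : ∀ j ≤ K, Cost ({fun _ => false} : Set (Fn (K * k))) {par y j} (3 * j * 2 ^ k) := by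
    intro j
    induction j with
    | zero =>
      intro _
      rw [par_zero]
      exact (Cost.sub (le_refl _)).mono (le_refl _) (le_refl _) (by omega)
    | succ j ih =>
      intro hj
      have h1 := cost_lookup (n := K * k) (o := k * (⟨j, hj⟩ : Fin K)) k (blk_pos _)
        (fun u : ℕ → Bool => y fun t : Fin k => u t)
        (fun u v huv => by
          have : (fun t : Fin k => u t) = fun t : Fin k => v t := funext fun t => huv t t.2
          simp only [this])
      rw [← blk_eq y ⟨j, hj⟩] at h1
      have h2 := Cost.xor' (ih (by omega)) h1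
      rw [← par_succ y j hj] at h2
      refine h2.mono (le_refl _) (le_refl _) ?_
      have : 1 ≤ 2 ^ k := Nat.one_le_two_pow
      have e : 3 * (j + 1) * 2 ^ k = 3 * j * 2 ^ k + 3 * 2 ^ k := by ring
      omega
  have h1 : Cost (∅ : Set (Fn (K * k))) {fun _ => false} 1 := Cost.false' hn
  have h2 := h1.trans ((key K (le_refl _)).mono Set.subset_union_right (le_refl _) (le_refl _))
  obtain ⟨s', hs', p', -, h3⟩ := h2 0 Gates.nil (Set.empty_subset _)
  obtain ⟨l, hl⟩ := h3 (Or.inr rfl)
  refine ⟨⟨s', p', l⟩, ?_, ?_⟩
  · show s' ≤ _
    omega
  · rw [← par_last]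
    funext x
    exact (hl x).symm

theorem lk_bp {K k : ℕ} (hn : 1 ≤ K * k) (y : (Fin k → Bool) → Bool) :
    ∃ P : BP (K * k), P.size ≤ 2 * K * 2 ^ k + 4 ∧ P.eval = lk y := by
  have key : ∀ j ≤ K, BCost (par y j : Fn (K * k)) (2 * j * 2 ^ k) := by
    intro j
    induction j with
    | zero =>
      intro _
      rw [par_zero]
      exact (BCost.const false).mono (by omega)
    | succ j ih =>
      intro hj
      have h1 := bcost_lookup (n := K * k) (o := k * (⟨j, hj⟩ : Fin K)) k (blk_pos _)
        (fun u : ℕ → Bool => y fun t : Fin k => u t)
        (fun u v huv => by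
          have : (fun t : Fin k => u t) = fun t : Fin k => v t := funext fun t => huv t t.2
          simp only [this])
      rw [← blk_eq y ⟨j, hj⟩] at h1
      have h2 := (ih (by omega)).xor h1
      rw [← par_succ y j hj] at h2
      refine h2.mono ?_
      have : 1 ≤ 2 ^ k := Nat.one_le_two_pow
      have e : 2 * (j + 1) * 2 ^ k = 2 * j * 2 ^ k + 2 * 2 ^ k := by ring
      omega
  obtain ⟨P, h1, h2⟩ := (key K (le_refl _)).exists_BP hn
  exact ⟨P, by omega, by rw [h2, par_last]⟩

end H630MC
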